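import Mathlib

/-!
# Step-stress Weibull model: the maximum likelihood estimates need not exist

Take `τ = 1`, the failure times `2, 3, 4` (all at the second stress level) and `η = 101`, with
`n - 3 ≥ 1` censored items. The three likelihood equations have no solution: if `X` takes the value
`u_j` with probability proportional to `u_j ^ α` and `g` is the geometric mean of the `u_i` of the
failures, they give `E [g / X - 1 + log (X / g)] = (1 - 1 / α) * κ`, where `κ + 1` is `g` times the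
mean of the `1 / u_i`; but the left side is larger than `κ` because of the censored items.
-/

set_option autoImplicit false

namespace Pool.Agent.Results.MP_1bbe3d_pr.NoMLE

open Finset

/-- the sum `Q(α, β)`; `a` and `b` are the failure times at the first and at the second level -/
noncomputable def Q (n : ℕ) (τ η : ℝ) {n1 n2 : ℕ} (a : Fin n1 → ℝ) (b : Fin n2 → ℝ) (α β : ℝ) :
    ℝ :=
  ∑ i, (a i) ^ α + ∑ i, (τ + β * (b i - τ)) ^ α +
    ((n : ℝ) - ((n1 : ℝ) + (n2 : ℝ))) * (τ + β * (η - τ)) ^ α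

/-- the log-likelihood `l(α, θ, β)` -/
noncomputable def loglik (n : ℕ) (τ η : ℝ) {n1 n2 : ℕ} (a : Fin n1 → ℝ) (b : Fin n2 → ℝ)
    (α θ β : ℝ) : ℝ :=
  ((n1 : ℝ) + (n2 : ℝ)) * Real.log α + (n2 : ℝ) * Real.log β -
    ((n1 : ℝ) + (n2 : ℝ)) * α * Real.log θ +
    (α - 1) * (∑ i, Real.log (a i) + ∑ i, Real.log (τ + β * (b i - τ))) -
    θ ^ (-α) * Q n τ η a b α β

/-- admissible data -/
def IsData (n : ℕ) (τ η : ℝ) {n1 n2 : ℕ} (a : Fin n1 → ℝ) (b : Fin n2 → ℝ) : Prop :=
  0 < τ ∧ τ < η ∧ n1 + n2 ≤ n ∧ StrictMono a ∧ (∀ i, 0 < a i ∧ a i ≤ τ) ∧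
    StrictMono b ∧ (∀ i, τ < b i ∧ b i ≤ η)

/-- the log-likelihood attains its supremum on `(0, ∞) ^ 3` -/
def MLEExist (n : ℕ) (τ η : ℝ) {n1 n2 : ℕ} (a : Fin n1 → ℝ) (b : Fin n2 → ℝ) : Prop :=
  ∃ α θ β : ℝ, 0 < α ∧ 0 < θ ∧ 0 < β ∧ ∀ α' θ' β' : ℝ, 0 < α' → 0 < θ' → 0 < β' →
    loglik n τ η a b α' θ' β' ≤ loglik n τ η a b α θ β

/-- the failure times of the example -/
def tt : Fin 3 → ℝ := ![2, 3, 4]

/-- the log-likelihood of the example -/
noncomputable def L (N α θ β : ℝ) : ℝ :=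
  3 * Real.log α + 3 * Real.log β - 3 * α * Real.log θ +
    (α - 1) * (Real.log (1 + β) + Real.log (1 + 2 * β) + Real.log (1 + 3 * β)) -
    θ ^ (-α) * ((1 + β) ^ α + (1 + 2 * β) ^ α + (1 + 3 * β) ^ α + N * (1 + 100 * β) ^ α)

theorem loglik_eq (n : ℕ) (α θ β : ℝ) :
    loglik n 1 101 (Fin.elim0 : Fin 0 → ℝ) tt α θ β = L ((n : ℝ) - 3) α θ β := by
  unfold loglik Q L tt
  simp only [Fin.sum_univ_three, Finset.univ_eq_empty, Finset.sum_empty, Nat.cast_zero,
    Matrix.cons_val_zero, Matrix.cons_val_one, Matrix.cons_val]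
  norm_num
  ring_nf

/-- the algebraic part: the likelihood equations are contradictory -/
theorem core (α β N A1 A2 A3 A4 : ℝ) (hα : 0 < α) (hβ : 0 < β) (hN : 1 ≤ N) (h1 : 0 < A1)
    (h2 : 0 < A2) (h3 : 0 < A3) (h4 : 0 < A4) (hle : 1 < α → A1 ≤ A4 ∧ A2 ≤ A4 ∧ A3 ≤ A4)
    (E2 : (A1 + A2 + A3 + N * A4) * (1 / α + (Real.log (1 + β) + Real.log (1 + 2 * β) +
      Real.log (1 + 3 * β)) / 3) = A1 * Real.log (1 + β) + A2 * Real.log (1 + 2 * β) +
      A3 * Real.log (1 + 3 * β) + N * A4 * Real.log (1 + 100 * β))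
    (E3 : (A1 + A2 + A3 + N * A4) * ((1 - 1 / α) * (1 / (1 + β) + 1 / (1 + 2 * β) +
      1 / (1 + 3 * β))) = 3 * (A1 / (1 + β) + A2 / (1 + 2 * β) + A3 / (1 + 3 * β) +
      N * A4 / (1 + 100 * β))) : False := by
  set u1 := 1 + β with hu1
  set u2 := 1 + 2 * β with hu2
  set u3 := 1 + 3 * β with hu3
  set u4 := 1 + 100 * β with hu4
  have p1 : 0 < u1 := by positivity
  have p2 : 0 < u2 := by positivity
  have p3 : 0 < u3 := by positivity
  have p4 : 0 < u4 := by positivity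
  set Λ := (Real.log u1 + Real.log u2 + Real.log u3) / 3 with hΛ
  set g := Real.exp Λ with hg
  have pg : 0 < g := Real.exp_pos _
  have lg : Real.log g = Λ := Real.log_exp _
  set S := 1 / u1 + 1 / u2 + 1 / u3 with hS
  set Q := A1 + A2 + A3 + N * A4 with hQ
  have pN : 0 < N := by linarith
  have pQ : 0 < Q := by positivity
  -- the function `h`
  have hh : ∀ u : ℝ, 0 < u → 0 ≤ g / u - 1 + Real.log u - Λ := by
    intro u hu
    have := Real.log_le_sub_one_of_pos (div_pos pg hu)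
    rw [Real.log_div pg.ne' hu.ne', lg] at this
    linarith
  have k1 := hh u1 p1
  have k2 := hh u2 p2
  have k3 := hh u3 p3
  -- the identity
  have ident : A1 * (g / u1 - 1 + Real.log u1 - Λ) + A2 * (g / u2 - 1 + Real.log u2 - Λ) +
      A3 * (g / u3 - 1 + Real.log u3 - Λ) + N * A4 * (g / u4 - 1 + Real.log u4 - Λ) =
      Q * ((1 - 1 / α) * (g * S / 3 - 1)) := by
    have e : A1 * (g / u1 - 1 + Real.log u1 - Λ) + A2 * (g / u2 - 1 + Real.log u2 - Λ) +
      A3 * (g / u3 - 1 + Real.log u3 - Λ) + N * A4 * (g / u4 - 1 + Real.log u4 - Λ) =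
      g * (A1 / u1 + A2 / u2 + A3 / u3 + N * A4 / u4) - Q - Q * Λ + (A1 * Real.log u1 +
        A2 * Real.log u2 + A3 * Real.log u3 + N * A4 * Real.log u4) := by
      rw [hQ]; ring
    rw [e, ← E2]
    have e2 : A1 / u1 + A2 / u2 + A3 / u3 + N * A4 / u4 = Q * ((1 - 1 / α) * S) / 3 := by
      linarith
    rw [e2]
    ring
  -- `g * S / 3 ≥ 1`
  have gS : 0 ≤ g * S / 3 - 1 := by
    have : g * S = g / u1 + g / u2 + g / u3 := by rw [hS]; ring
    rw [this]
    linarith
  -- `g ≤ u2`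
  have hΛ2 : Λ ≤ Real.log u2 := by
    have : Real.log u1 + Real.log u3 ≤ 2 * Real.log u2 := by
      rw [← Real.log_mul p1.ne' p3.ne', show (2 : ℝ) * Real.log u2 = Real.log (u2 ^ 2) by
        rw [Real.log_pow]; norm_num]
      refine Real.log_le_log (by positivity) ?_
      rw [hu1, hu2, hu3]
      nlinarith
    rw [hΛ]
    linarith
  have hgu2 : g ≤ u2 := by
    rw [hg, ← Real.exp_log p2]
    exact Real.exp_le_exp.2 hΛ2
  -- lower bound for the censored items
  have hlow : 4802 * β ^ 2 / ((1 + 51 * β) * u4) ≤ g / u4 - 1 + Real.log u4 - Λ := by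
    have a1 : (u2 - g) / u4 ≤ Real.log u2 - Λ := by
      have := Real.log_le_sub_one_of_pos (div_pos pg p2)
      rw [Real.log_div pg.ne' p2.ne', lg] at this
      have h5 : (u2 - g) / u4 ≤ (u2 - g) / u2 := by
        refine div_le_div_of_nonneg_left (by linarith) p2 ?_
        rw [hu2, hu4]; linarith
      have h6 : (u2 - g) / u2 = 1 - g / u2 := by rw [sub_div, div_self p2.ne']
      linarith
    have a2 : 98 * β / (1 + 51 * β) ≤ Real.log u4 - Real.log u2 := by
      have h5 := Real.le_log_one_add_of_nonneg (x := 98 * β / u2) (by positivity)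
      have h6 : 1 + 98 * β / u2 = u4 / u2 := by
        rw [eq_div_iff p2.ne', add_mul, div_mul_cancel₀ _ p2.ne', hu2, hu4]
        ring
      rw [h6, Real.log_div p4.ne' p2.ne'] at h5
      refine le_trans (le_of_eq ?_) h5
      have : 98 * β + 2 * u2 = 2 * (1 + 51 * β) := by rw [hu2]; ring
      field_simp
      rw [this]
      ring
    have a3 : 4802 * β ^ 2 / ((1 + 51 * β) * u4) = 98 * β / (1 + 51 * β) - 98 * β / u4 := by
      have : 0 < 1 + 51 * β := by positivity
      field_simp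
      rw [hu4]
      ring
    have a4 : 98 * β / u4 = 1 - u2 / u4 := by
      rw [eq_sub_iff_add_eq, ← add_div, div_eq_one_iff_eq p4.ne', hu2, hu4]
      ring
    have a5 : (u2 - g) / u4 = u2 / u4 - g / u4 := sub_div _ _ _
    linarith
  have hpos : 0 < 4802 * β ^ 2 / ((1 + 51 * β) * u4) := by positivity
  have hmain : N * A4 * (g / u4 - 1 + Real.log u4 - Λ) ≤ Q * ((1 - 1 / α) * (g * S / 3 - 1)) := by
    rw [← ident]
    have := mul_nonneg h1.le k1
    have := mul_nonneg h2.le k2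
    have := mul_nonneg h3.le k3
    linarith
  have hNA : 0 < N * A4 := by positivity
  by_cases hα1 : 1 < α
  · obtain ⟨b1, b2, b3⟩ := hle hα1
    have hNA4 : A4 ≤ N * A4 := le_mul_of_one_le_left h4.le hN
    have hQ4 : Q ≤ 4 * (N * A4) := by rw [hQ]; linarith
    have hinv : 1 - 1 / α ≤ 1 := by
      have : 0 < 1 / α := by positivity
      linarith
    have hinv0 : 0 ≤ 1 - 1 / α := by
      rw [sub_nonneg, div_le_one hα]; exact hα1.le
    have c1 : Q * ((1 - 1 / α) * (g * S / 3 - 1)) ≤ 4 * (N * A4) * (1 * (u2 * S / 3 - 1)) := by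
      have hS0 : 0 < S := by positivity
      have : g * S / 3 - 1 ≤ u2 * S / 3 - 1 := by
        have := mul_le_mul_of_nonneg_right hgu2 hS0.le
        linarith
      have d1 : (1 - 1 / α) * (g * S / 3 - 1) ≤ 1 * (u2 * S / 3 - 1) :=
        mul_le_mul hinv this gS zero_le_one
      have d2 : 0 ≤ (1 - 1 / α) * (g * S / 3 - 1) := mul_nonneg hinv0 gS
      have d3 : 0 ≤ 4 * (N * A4) := by linarith
      exact mul_le_mul hQ4 d1 d2 d3
    have c2 : N * A4 * (4802 * β ^ 2 / ((1 + 51 * β) * u4)) ≤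
        N * A4 * (4 * (u2 * S / 3 - 1)) := by
      have := mul_le_mul_of_nonneg_left hlow hNA.le
      linarith
    have c3 := le_of_mul_le_mul_left c2 hNA
    have c4 : 4 * (u2 * S / 3 - 1) = 8 / 3 * β ^ 2 / (u1 * u3) := by
      rw [hS]
      field_simp
      rw [hu1, hu2, hu3]
      ring
    rw [c4, div_le_div_iff₀ (by positivity) (by positivity)] at c3
    have hb2 : 0 < β ^ 2 := by positivity
    have c5 : 4802 * (u1 * u3) ≤ 8 / 3 * ((1 + 51 * β) * u4) := by
      have : β ^ 2 * (4802 * (u1 * u3)) ≤ β ^ 2 * (8 / 3 * ((1 + 51 * β) * u4)) := by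
        linarith
      exact le_of_mul_le_mul_left this hb2
    rw [hu1, hu3, hu4] at c5
    nlinarith
  · push Not at hα1
    have hinv0 : 1 - 1 / α ≤ 0 := by
      rw [sub_nonpos, le_div_iff₀ hα]; linarith
    have c1 : Q * ((1 - 1 / α) * (g * S / 3 - 1)) ≤ 0 :=
      mul_nonpos_of_nonneg_of_nonpos pQ.le (mul_nonpos_of_nonpos_of_nonneg hinv0 gS)
    have c2 : 0 < N * A4 * (g / u4 - 1 + Real.log u4 - Λ) := mul_pos hNA (by linarith)
    linarith

theorem no_max (N : ℝ) (hN : 1 ≤ N) (α θ β : ℝ) (hα : 0 < α) (hθ : 0 < θ) (hβ : 0 < β)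
    (hmax : ∀ α' θ' β' : ℝ, 0 < α' → 0 < θ' → 0 < β' → L N α' θ' β' ≤ L N α θ β) : False := by
  have p1 : 0 < 1 + β := by positivity
  have p2 : 0 < 1 + 2 * β := by positivity
  have p3 : 0 < 1 + 3 * β := by positivity
  have p4 : 0 < 1 + 100 * β := by positivity
  have q1 := Real.rpow_pos_of_pos p1 α
  have q2 := Real.rpow_pos_of_pos p2 α
  have q3 := Real.rpow_pos_of_pos p3 α
  have q4 := Real.rpow_pos_of_pos p4 α
  have qθ := Real.rpow_pos_of_pos hθ (-α)
  -- derivative in `θ`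
  have dθ : HasDerivAt (fun x => L N α x β) (-(3 * α * θ⁻¹) - (-α) * θ ^ (-α - 1) *
      ((1 + β) ^ α + (1 + 2 * β) ^ α + (1 + 3 * β) ^ α + N * (1 + 100 * β) ^ α)) θ := by
    unfold L
    have e1 := (Real.hasDerivAt_log hθ.ne').const_mul (3 * α)
    have e2 := (Real.hasDerivAt_rpow_const (x := θ) (p := -α) (Or.inl hθ.ne')).mul_const
      ((1 + β) ^ α + (1 + 2 * β) ^ α + (1 + 3 * β) ^ α + N * (1 + 100 * β) ^ α)
    have e3 := (((hasDerivAt_const θ (3 * Real.log α + 3 * Real.log β)).sub e1).add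
      (hasDerivAt_const θ ((α - 1) * (Real.log (1 + β) + Real.log (1 + 2 * β) +
        Real.log (1 + 3 * β))))).sub e2
    refine e3.congr_deriv ?_
    ring
  have mθ : IsLocalMax (fun x => L N α x β) θ := by
    filter_upwards [lt_mem_nhds hθ] with x hx
    exact hmax α x β hα hx hβ
  have zθ := mθ.hasDerivAt_eq_zero dθ
  -- derivative in `α`
  have dα : HasDerivAt (fun x => L N x θ β) (3 * α⁻¹ - 3 * Real.log θ +
      (Real.log (1 + β) + Real.log (1 + 2 * β) + Real.log (1 + 3 * β)) -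
      ((Real.log θ * (-1) * θ ^ (-α)) *
        ((1 + β) ^ α + (1 + 2 * β) ^ α + (1 + 3 * β) ^ α + N * (1 + 100 * β) ^ α) +
      θ ^ (-α) * (Real.log (1 + β) * 1 * (1 + β) ^ α + Real.log (1 + 2 * β) * 1 * (1 + 2 * β) ^ α +
        Real.log (1 + 3 * β) * 1 * (1 + 3 * β) ^ α +
        N * (Real.log (1 + 100 * β) * 1 * (1 + 100 * β) ^ α)))) α := by
    unfold L
    have e1 := (Real.hasDerivAt_log hα.ne').const_mul (3 : ℝ)
    have e2 : HasDerivAt (fun x : ℝ => 3 * x * Real.log θ) (3 * Real.log θ) α := by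
      have := ((hasDerivAt_id α).const_mul (3 : ℝ)).mul_const (Real.log θ)
      simpa using this
    have e3 : HasDerivAt (fun x : ℝ => (x - 1) * (Real.log (1 + β) + Real.log (1 + 2 * β) +
        Real.log (1 + 3 * β))) (Real.log (1 + β) + Real.log (1 + 2 * β) +
        Real.log (1 + 3 * β)) α := by
      have := ((hasDerivAt_id α).sub_const (1 : ℝ)).mul_const (Real.log (1 + β) +
        Real.log (1 + 2 * β) + Real.log (1 + 3 * β))
      simpa using this
    have e4 : HasDerivAt (fun x : ℝ => θ ^ (-x)) (Real.log θ * (-1) * θ ^ (-α)) α :=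
      HasDerivAt.const_rpow hθ (hasDerivAt_id α).neg
    have f1 : HasDerivAt (fun x : ℝ => (1 + β) ^ x) (Real.log (1 + β) * 1 * (1 + β) ^ α) α :=
      HasDerivAt.const_rpow p1 (hasDerivAt_id α)
    have f2 : HasDerivAt (fun x : ℝ => (1 + 2 * β) ^ x)
        (Real.log (1 + 2 * β) * 1 * (1 + 2 * β) ^ α) α :=
      HasDerivAt.const_rpow p2 (hasDerivAt_id α)
    have f3 : HasDerivAt (fun x : ℝ => (1 + 3 * β) ^ x)
        (Real.log (1 + 3 * β) * 1 * (1 + 3 * β) ^ α) α :=
      HasDerivAt.const_rpow p3 (hasDerivAt_id α)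
    have f4 : HasDerivAt (fun x : ℝ => (1 + 100 * β) ^ x)
        (Real.log (1 + 100 * β) * 1 * (1 + 100 * β) ^ α) α :=
      HasDerivAt.const_rpow p4 (hasDerivAt_id α)
    have e5 := ((f1.add f2).add f3).add (f4.const_mul N)
    have e6 := e4.mul e5
    exact (((e1.add_const (3 * Real.log β)).sub e2).add e3).sub e6
  have mα : IsLocalMax (fun x => L N x θ β) α := by
    filter_upwards [lt_mem_nhds hα] with x hx
    exact hmax x θ β hx hθ hβ
  have zα := mα.hasDerivAt_eq_zero dα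
  -- derivative in `β`
  have lin : ∀ c : ℝ, HasDerivAt (fun x : ℝ => 1 + c * x) c β := by
    intro c
    have := ((hasDerivAt_id β).const_mul c).const_add 1
    simpa using this
  have lin1 : HasDerivAt (fun x : ℝ => 1 + x) 1 β := (hasDerivAt_id β).const_add 1
  have dβ : HasDerivAt (fun x => L N α θ x) (3 * β⁻¹ +
      (α - 1) * (1 / (1 + β) + 2 / (1 + 2 * β) + 3 / (1 + 3 * β)) -
      θ ^ (-α) * (1 * α * (1 + β) ^ (α - 1) + 2 * α * (1 + 2 * β) ^ (α - 1) +
        3 * α * (1 + 3 * β) ^ (α - 1) + N * (100 * α * (1 + 100 * β) ^ (α - 1)))) β := by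
    unfold L
    have e1 := (Real.hasDerivAt_log hβ.ne').const_mul (3 : ℝ)
    have e2 := (((lin1.log p1.ne').add ((lin 2).log p2.ne')).add ((lin 3).log p3.ne')).const_mul
      (α - 1)
    have e3 := ((((lin1.rpow_const (p := α) (Or.inl p1.ne')).add
      ((lin 2).rpow_const (p := α) (Or.inl p2.ne'))).add
      ((lin 3).rpow_const (p := α) (Or.inl p3.ne'))).add
      (((lin 100).rpow_const (p := α) (Or.inl p4.ne')).const_mul N)).const_mul (θ ^ (-α))
    exact (((e1.const_add (3 * Real.log α)).sub_const (3 * α * Real.log θ)).add e2).sub e3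
  have mβ : IsLocalMax (fun x => L N α θ x) β := by
    filter_upwards [lt_mem_nhds hβ] with x hx
    exact hmax α θ x hα hθ hx
  have zβ := mβ.hasDerivAt_eq_zero dβ
  -- the three equations
  set A1 := (1 + β) ^ α with hA1
  set A2 := (1 + 2 * β) ^ α with hA2
  set A3 := (1 + 3 * β) ^ α with hA3
  set A4 := (1 + 100 * β) ^ α with hA4
  have r1 : (1 + β) ^ (α - 1) = A1 / (1 + β) := Real.rpow_sub_one p1.ne' α
  have r2 : (1 + 2 * β) ^ (α - 1) = A2 / (1 + 2 * β) := Real.rpow_sub_one p2.ne' α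
  have r3 : (1 + 3 * β) ^ (α - 1) = A3 / (1 + 3 * β) := Real.rpow_sub_one p3.ne' α
  have r4 : (1 + 100 * β) ^ (α - 1) = A4 / (1 + 100 * β) := Real.rpow_sub_one p4.ne' α
  have rθ : θ ^ (-α - 1) = θ ^ (-α) / θ := Real.rpow_sub_one hθ.ne' (-α)
  rw [rθ] at zθ
  rw [r1, r2, r3, r4] at zβ
  set W := θ ^ (-α) with hW
  have hE1 : W * (A1 + A2 + A3 + N * A4) = 3 := by
    have : α * θ⁻¹ * (W * (A1 + A2 + A3 + N * A4) - 3) = 0 := by
      rw [← zθ]
      field_simp
      ring
    have hne : α * θ⁻¹ ≠ 0 := by positivity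
    have := (mul_eq_zero.1 this).resolve_left hne
    linarith
  have hW' : 0 < W := qθ
  refine core α β N A1 A2 A3 A4 hα hβ hN q1 q2 q3 q4 ?_ ?_ ?_
  · intro _
    refine ⟨?_, ?_, ?_⟩
    · exact Real.rpow_le_rpow p1.le (by linarith) hα.le
    · exact Real.rpow_le_rpow p2.le (by linarith) hα.le
    · exact Real.rpow_le_rpow p3.le (by linarith) hα.le
  · have : W * ((A1 + A2 + A3 + N * A4) * (1 / α + (Real.log (1 + β) + Real.log (1 + 2 * β) +
      Real.log (1 + 3 * β)) / 3)) = W * (A1 * Real.log (1 + β) + A2 * Real.log (1 + 2 * β) +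
      A3 * Real.log (1 + 3 * β) + N * A4 * Real.log (1 + 100 * β)) := by
      rw [← mul_assoc, hE1]
      have h5 : Real.log θ * (-1) * W * (A1 + A2 + A3 + N * A4) = -(3 * Real.log θ) := by
        rw [mul_assoc, hE1]; ring
      rw [h5] at zα
      rw [one_div]
      linarith
    exact mul_left_cancel₀ hW'.ne' this
  · have : W * ((A1 + A2 + A3 + N * A4) * ((1 - 1 / α) * (1 / (1 + β) + 1 / (1 + 2 * β) +
      1 / (1 + 3 * β)))) = W * (3 * (A1 / (1 + β) + A2 / (1 + 2 * β) + A3 / (1 + 3 * β) +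
      N * A4 / (1 + 100 * β))) := by
      rw [← mul_assoc, hE1]
      have s1 : β * (1 / (1 + β)) = 1 - 1 / (1 + β) := by field_simp; ring
      have s2 : β * (2 / (1 + 2 * β)) = 1 - 1 / (1 + 2 * β) := by field_simp; ring
      have s3 : β * (3 / (1 + 3 * β)) = 1 - 1 / (1 + 3 * β) := by field_simp; ring
      have t1 : β * (A1 / (1 + β)) = A1 - A1 / (1 + β) := by field_simp; ring
      have t2 : β * (2 * (A2 / (1 + 2 * β))) = A2 - A2 / (1 + 2 * β) := by field_simp; ring
      have t3 : β * (3 * (A3 / (1 + 3 * β))) = A3 - A3 / (1 + 3 * β) := by field_simp; ring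
      have t4 : β * (100 * (A4 / (1 + 100 * β))) = A4 - A4 / (1 + 100 * β) := by
        field_simp; ring
      have z2 : β * β⁻¹ * 3 + (α - 1) * (β * (1 / (1 + β)) + β * (2 / (1 + 2 * β)) +
          β * (3 / (1 + 3 * β))) - W * α * (β * (A1 / (1 + β)) + β * (2 * (A2 / (1 + 2 * β))) +
          β * (3 * (A3 / (1 + 3 * β))) + N * (β * (100 * (A4 / (1 + 100 * β))))) = 0 := by
        have := congrArg (fun x => β * x) zβ
        simp only [mul_zero] at this
        rw [← this]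
        ring
      rw [s1, s2, s3, t1, t2, t3, t4, mul_inv_cancel₀ hβ.ne'] at z2
      have z3 : W * α * (A1 + A2 + A3 + N * A4) = 3 * α := by
        rw [mul_assoc, mul_comm α, ← mul_assoc, hE1]
      have z4 : W * α * (A1 / (1 + β) + A2 / (1 + 2 * β) + A3 / (1 + 3 * β) +
          N * A4 / (1 + 100 * β)) = (α - 1) * (1 / (1 + β) + 1 / (1 + 2 * β) +
          1 / (1 + 3 * β)) := by
        have e : N * (A4 / (1 + 100 * β)) = N * A4 / (1 + 100 * β) := by ring
        linear_combination z2 + z3 + W * α * e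
      have e5 : (1 - 1 / α) = (α - 1) / α := by field_simp
      rw [e5]
      field_simp
      field_simp at z4
      linarith
    exact mul_left_cancel₀ hW'.ne' this

/-- for every `n ≥ 4` there are data with `n2 ≠ 0` and `n1 + n2 ≥ 3` for which the likelihood does
not attain its supremum -/
theorem result (n : ℕ) (hn : 4 ≤ n) : ∃ (τ η : ℝ) (n1 n2 : ℕ) (a : Fin n1 → ℝ) (b : Fin n2 → ℝ),
    n2 ≠ 0 ∧ 3 ≤ n1 + n2 ∧ IsData n τ η a b ∧ ¬ MLEExist n τ η a b := by
  refine ⟨1, 101, 0, 3, Fin.elim0, tt, by norm_num, by norm_num, ⟨by norm_num, by norm_num,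
    by omega, fun i => i.elim0, fun i => i.elim0, ?_, ?_⟩, ?_⟩
  · intro i j hij
    fin_cases i <;> fin_cases j <;> simp [tt] at hij ⊢ <;> norm_num
  · intro i
    fin_cases i <;> simp [tt] <;> norm_num
  · rintro ⟨α, θ, β, hα, hθ, hβ, hmax⟩
    have hn' : (4 : ℝ) ≤ (n : ℝ) := by exact_mod_cast hn
    refine no_max ((n : ℝ) - 3) (by linarith) α θ β hα hθ hβ fun α' θ' β' h1 h2 h3 => ?_
    have := hmax α' θ' β' h1 h2 h3
    rwa [loglik_eq, loglik_eq] at this

end Pool.Agent.Results.MP_1bbe3d_pr.NoMLE
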